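import Pool.Agent.H89.FC.TargetsN

/-!
# The trivial bound for the size of a family of given weight
-/

set_option autoImplicit false

open MeasureTheory Set Filter NumberField
open scoped Real nonZeroDivisors

namespace Pool.Agent.H34.FC

open Pool.Agent.H31.CN Pool.Agent.H89.FM Pool.Agent.H61.FM Pool.Agent.H89.FC

theorem fib_card {K : ℕ → Type} [∀ D, Field (K D)] [∀ D, NumberField (K D)]
    (S : Finset (IX K)) (m : ℤ) (hm : ∀ y ∈ S, y.2.2.1 = m) (D f : ℕ) :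
    ∃ Ψ : Finset (Ideal (𝓞 (K D)) → ℂ),
      (∀ ψ ∈ Ψ, (⟨D, f, m, ψ⟩ : IX K) ∈ S) ∧
      (S.filter (fun y => (y.1, y.2.1) = (D, f))).card ≤ Ψ.card := by
  classical
  have hinj : Function.Injective (fun ψ : Ideal (𝓞 (K D)) → ℂ => (⟨D, f, m, ψ⟩ : IX K)) := by
    intro a b hab
    have h1 := eq_of_heq (Sigma.mk.inj hab).2
    exact (Prod.mk.inj (Prod.mk.inj h1).2).2
  have hpre : ∀ ψ : Ideal (𝓞 (K D)) → ℂ, ψ ∈ S.preimage
      (fun ψ : Ideal (𝓞 (K D)) → ℂ => (⟨D, f, m, ψ⟩ : IX K)) hinj.injOn ↔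
      (⟨D, f, m, ψ⟩ : IX K) ∈ S := by
    intro ψ
    rw [Finset.mem_preimage]
  refine ⟨S.preimage (fun ψ : Ideal (𝓞 (K D)) → ℂ => (⟨D, f, m, ψ⟩ : IX K)) hinj.injOn,
    fun ψ hψ => (hpre ψ).1 hψ, ?_⟩
  refine le_trans (Finset.card_le_card (t := (S.preimage
    (fun ψ : Ideal (𝓞 (K D)) → ℂ => (⟨D, f, m, ψ⟩ : IX K)) hinj.injOn).image
    (fun ψ : Ideal (𝓞 (K D)) → ℂ => (⟨D, f, m, ψ⟩ : IX K))) ?_) Finset.card_image_le
  intro y hy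
  obtain ⟨hyS, hyE⟩ := Finset.mem_filter.1 hy
  have hym := hm y hyS
  obtain ⟨D', f', m', ψ'⟩ := y
  have e1 : D' = D := (Prod.mk.inj hyE).1
  have e2 : f' = f := (Prod.mk.inj hyE).2
  have e3 : m' = m := hym
  subst e1
  subst e2
  subst e3
  exact Finset.mem_image.2 ⟨ψ', (hpre ψ').2 hyS, rfl⟩

theorem pf_CRDc (hHBD : T_HBDc) : T_CRDc := by
  classical
  obtain ⟨C, hC, hH⟩ := hHBD (1 / 2) (by norm_num)
  refine ⟨C, hC, ?_⟩
  intro m X K _ _ σ S F hX hF hm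
  have hX0 : (0 : ℝ) ≤ X := le_trans zero_le_one hX
  set N : ℕ := ⌊X⌋₊ with hN
  have hNX : (N : ℝ) ≤ X := Nat.floor_le hX0
  have hfib : ∀ D f : ℕ,
      ((S.filter (fun y => (y.1, y.2.1) = (D, f))).card : ℝ) ≤ C * X := by
    intro D f
    obtain ⟨Ψ, hΨ, hcard⟩ := fib_card S m hm D f
    rcases Ψ.eq_empty_or_nonempty with h0 | ⟨ψ, hψ⟩
    · rw [h0, Finset.card_empty] at hcard
      have h1 : (S.filter (fun y => (y.1, y.2.1) = (D, f))).card = 0 := Nat.le_zero.1 hcard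
      rw [h1, Nat.cast_zero]
      exact mul_nonneg hC.le hX0
    · have hIQ : IQ (K D) D := hF.iq _ (hΨ ψ hψ)
      have hq : (D : ℝ) * (f : ℝ) ^ 2 ≤ X := (hF.q _ (hΨ ψ hψ)).2
      have hb := hH (K D) (σ D) D f m Ψ hIQ (fun ψ' hψ' => hF.ch _ (hΨ ψ' hψ'))
      have e : (1 / 2 + 1 / 2 : ℝ) = 1 := by norm_num
      rw [e, Real.rpow_one] at hb
      have h2 : ((S.filter (fun y => (y.1, y.2.1) = (D, f))).card : ℝ) ≤ (Ψ.card : ℝ) := by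
        exact_mod_cast hcard
      exact h2.trans (hb.trans (mul_le_mul_of_nonneg_left hq hC.le))
  have hmaps : ∀ y ∈ S, (fun y : IX K => (y.1, y.2.1)) y ∈
      Finset.Icc 1 N ×ˢ Finset.Icc 1 N := by
    intro y hy
    have hD : 1 ≤ y.1 := (hF.iq y hy).pos
    have hf : 1 ≤ y.2.1 := (hF.ch y hy).pos
    have hq : (y.1 : ℝ) * (y.2.1 : ℝ) ^ 2 ≤ X := (hF.q y hy).2
    have hD' : (1 : ℝ) ≤ (y.1 : ℝ) := by exact_mod_cast hD
    have hf' : (1 : ℝ) ≤ (y.2.1 : ℝ) := by exact_mod_cast hf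
    have hf2 : (y.2.1 : ℝ) ≤ (y.2.1 : ℝ) ^ 2 := by nlinarith
    have hf1 : (1 : ℝ) ≤ (y.2.1 : ℝ) ^ 2 := hf'.trans hf2
    have a1 : (y.1 : ℝ) ≤ X :=
      le_trans (le_mul_of_one_le_right (zero_le_one.trans hD') hf1) hq
    have a2 : (y.2.1 : ℝ) ≤ X :=
      le_trans (hf2.trans (le_mul_of_one_le_left (zero_le_one.trans hf1) hD')) hq
    exact Finset.mem_product.2 ⟨Finset.mem_Icc.2 ⟨hD, Nat.le_floor a1⟩,
      Finset.mem_Icc.2 ⟨hf, Nat.le_floor a2⟩⟩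
  have hsum := Finset.card_eq_sum_card_fiberwise hmaps
  have h3 : (S.card : ℝ) = ∑ b ∈ Finset.Icc 1 N ×ˢ Finset.Icc 1 N,
      ((S.filter (fun y => (y.1, y.2.1) = b)).card : ℝ) := by
    rw [hsum, Nat.cast_sum]
  have h4 : ∑ b ∈ Finset.Icc 1 N ×ˢ Finset.Icc 1 N,
      ((S.filter (fun y => (y.1, y.2.1) = b)).card : ℝ) ≤
      ∑ b ∈ Finset.Icc 1 N ×ˢ Finset.Icc 1 N, C * X :=
    Finset.sum_le_sum (fun b _ => hfib b.1 b.2)
  have h5 : ∑ b ∈ Finset.Icc 1 N ×ˢ Finset.Icc 1 N, C * X = (N : ℝ) * N * (C * X) := by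
    rw [Finset.sum_const, Finset.card_product, Nat.card_Icc, Nat.add_sub_cancel, nsmul_eq_mul,
      Nat.cast_mul]
  have hCX : 0 ≤ C * X := mul_nonneg hC.le hX0
  have hN0 : (0 : ℝ) ≤ (N : ℝ) := Nat.cast_nonneg N
  calc (S.card : ℝ) ≤ (N : ℝ) * N * (C * X) := by rw [h3, ← h5]; exact h4
    _ ≤ X * X * (C * X) :=
        mul_le_mul_of_nonneg_right (mul_le_mul hNX hNX hN0 hX0) hCX
    _ = C * X ^ 3 := by ring

end Pool.Agent.H34.FC
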